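import Mathlib
import Pool.Agent.Lib.helper23.Dual
import Pool.Agent.Lib.helper23.HMP
set_option autoImplicit false
namespace Pool.Agent.Results.MP_c8715f_al.Counter
open Set Topology Filter Pool.Agent.Lib.helper23.Dual BoundedContinuousFunction

def IsSGroup (A : Type) [CommGroup A] [τ : TopologicalSpace A] : Prop :=
  ∃ S : Set (ℕ → A), IsLeast {σ : TopologicalSpace A | @IsTopologicalGroup A σ _ ∧
    @T2Space A σ ∧ ∀ u ∈ S, Tendsto u atTop (@nhds A σ 1)} τ

lemma nrm {r : ℝ} (h : 0 ≤ r) (h' : r ≤ 1 / 2) : ‖(r : T)‖ = r :=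
  ((AddCircle.norm_coe_eq_abs_iff 1 one_ne_zero).2 (by simpa [abs_of_nonneg h] using h')).trans
    (abs_of_nonneg h)

lemma lift (t : T) : ∃ r : ℝ, (r : T) = t ∧ |r| = ‖t‖ := by
  obtain ⟨r, rfl⟩ := QuotientAddGroup.mk_surjective t
  exact ⟨r - round r, by simp, UnitAddCircle.norm_eq.symm⟩

lemma nss {t : T} (h : ∀ n : ℕ, ‖n • t‖ ≤ 1 / 4) : t = 0 := by
  obtain ⟨k, hk⟩ := CR (I := Empty) (fun _ => 0) (zmultiplesHom T t) univ_mem fun n _ => by
    rcases n.eq_nat_or_neg with ⟨n, rfl | rfl⟩ <;> simpa using h n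
  simpa [Subsingleton.elim k 0] using hk 1

def Tr (c : (ℕ → T) →+ T) (A : Set ℕ) : Prop := ∀ x, (∀ n ∉ A, x n = 0) → c x = 0

lemma thin {c : (ℕ → T) →+ T} {δ : ℝ} (hδ : 0 < δ) (h : ∀ x, (∀ n, ‖x n‖ ≤ δ) → ‖c x‖ ≤ 1 / 8)
    {A : Set ℕ} (hA : A.Infinite) : ∃ B ⊆ A, B.Infinite ∧ Tr c B := by
  classical
  by_contra! h1
  obtain ⟨m, hm⟩ := exists_nat_gt (1 / δ)
  have h0 : (0 : ℝ) < m := (one_div_pos.2 hδ).trans hm
  let e := fun j i => (hA.natEmbedding _ (Nat.pair j i)).1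
  have h2 (j) : ∃ (x : ℕ → T) (r : ℝ), (∀ n ∉ range (e j), x n = 0) ∧ (∀ n, ‖x n‖ ≤ δ) ∧
      c x = r ∧ 1 / 4 ≤ m * r ∧ r ≤ 1 / 8 := by
    obtain ⟨y, h2, h3⟩ : ∃ y, (∀ n ∉ range (e j), y n = 0) ∧ c y ≠ 0 := by
      simpa [Tr] using h1 (range (e j)) (by rintro _ ⟨i, rfl⟩; exact Subtype.prop _)
        (infinite_range_of_injective fun a b h => (Nat.pair_eq_pair.1
          ((hA.natEmbedding _).injective (Subtype.ext h))).2)
    obtain ⟨n, h4⟩ := not_forall.1 (mt nss h3)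
    choose u h5 h6 using fun i => lift (n • y i)
    let x : ℕ → T := fun i => (u i / m : ℝ)
    have h7 (i) : ‖x i‖ ≤ δ := by
      refine QuotientAddGroup.norm_mk_le_norm.trans ?_
      have := AddCircle.norm_le_half_period 1 (x := n • y i) one_ne_zero
      rw [Real.norm_eq_abs, abs_div, h6, abs_of_pos h0, div_le_iff₀ h0]
      rw [div_lt_iff₀ hδ] at hm
      norm_num at this
      linarith
    have h8 (i) (h : i ∉ range (e j)) : x i = 0 := by
      simp [x, show u i = 0 by simpa [h2 i h] using h6 i]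
    have h9 : 1 / 4 ≤ m * ‖c x‖ := by
      refine (not_le.1 h4).le.trans (le_of_eq_of_le ?_ (norm_nsmul_le (a := c x)))
      rw [← map_nsmul, ← map_nsmul]
      congr 2
      funext i
      rw [Pi.smul_apply, ← h5, Pi.smul_apply, ← AddCircle.coe_nsmul, nsmul_eq_mul,
        mul_div_cancel₀ _ h0.ne']
    obtain ⟨r, h10, h11⟩ := lift (c x)
    rcases abs_cases r with h12 | h12
    · exact ⟨x, r, h8, h7, h10.symm, by rwa [← h12.1, h11], by rw [← h12.1, h11]; exact h x h7⟩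
    · exact ⟨-x, -r, by simpa using h8, by simpa using h7, by simp [h10], by rwa [← h12.1, h11],
        by rw [← h12.1, h11]; exact h x h7⟩
  choose x r h2 h3 h4 h5 h6 using h2
  have h7 (j) : 0 ≤ r j := nonneg_of_mul_nonneg_right (by linarith [h5 j]) h0 |> fun h => h
  have h8 (M) : ∑ j ∈ Finset.range M, r j ≤ 1 / 8 := by
    induction M with
    | zero => simp
    | succ M ih =>
      rw [← nrm (Finset.sum_nonneg fun j _ => h7 j) (by
        rw [Finset.sum_range_succ]; linarith [h6 M]), QuotientAddGroup.mk_sum]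
      simp only [← h4, ← map_sum]
      refine h _ fun n => ?_
      rw [Finset.sum_apply]
      by_cases h8 : ∃ j, n ∈ range (e j)
      · obtain ⟨j, i, rfl⟩ := h8
        rw [Finset.sum_eq_ite j fun k _ hk => h2 k _ fun ⟨l, h⟩ => hk (Nat.pair_eq_pair.1
          ((hA.natEmbedding _).injective (Subtype.ext h))).1]
        split_ifs
        exacts [h3 _ _, by simpa using hδ.le]
      · simpa [Finset.sum_eq_zero fun j _ => h2 j n fun h => h8 ⟨j, h⟩] using hδ.le
  have := Finset.sum_le_sum fun j (_ : j ∈ Finset.range m) => h5 j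
  rw [← Finset.mul_sum] at this
  simp at this
  nlinarith [h8 m]

lemma hump (c : ℕ → (ℕ → T) →+ T)
    (h : ∀ k, ∃ δ > 0, ∀ x, (∀ n, ‖x n‖ ≤ δ) → ‖c k x‖ ≤ 1 / 8)
    (h' : ∀ x, Tendsto (c · x) atTop (𝓝 0)) : ∀ᶠ k in atTop, ∀ n t, c k (Pi.single n t) = 0 := by
  classical
  choose δ h1 h2 using h
  have h3 (n) : ∀ᶠ k in atTop, ∀ t, c k (Pi.single n t) = 0 := by
    by_contra h3
    obtain ⟨φ, h3, h4⟩ := extraction_of_frequently_atTop (not_eventually.1 h3)
    choose b hb using fun k => CR (I := Unit) (fun _ => .id T)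
      ((c k).comp (.single (fun _ => T) n)) (Metric.closedBall_mem_nhds 0 (h1 k)) fun t h =>
        (h2 k _ fun i => by
          have := (pi_norm_le_iff_of_nonneg (h1 k).le).1 (mem_closedBall_zero_iff.1 h) ()
          by_cases h : i = n <;> simp [h, (h1 k).le]
          exact this).trans (by norm_num)
    obtain ⟨y, h5⟩ := bohr (b ∘ φ) fun k h => h4 k fun t => (hb _ t).trans (by
      rw [show b (φ k) = 0 from h, map_zero])
    exact h5 (((h' _).comp h3.tendsto_atTop).congr fun k => hb _ (y ()))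
  by_contra h4
  let E := {n | ∃ k t, c k (Pi.single n t) ≠ 0}
  have h5 : E.Infinite := fun h => h4 (((eventually_all_finite h).2 fun n _ => h3 n).mono
    fun k h n t => by_contra fun h' => h' (h n ⟨k, t, h'⟩ t))
  choose! k t h6 using fun n (h : n ∈ E) => h
  let P := fun p : ℕ × Set ℕ × (ℕ → T) => p.1 ∈ E ∧ p.2.1.Infinite ∧ p.2.1 ⊆ E ∩ Ioi p.1 ∧
    Tr (c (k p.1)) p.2.1 ∧ 1 / 8 ≤ ‖c (k p.1) p.2.2‖
  have h7 (A : Set ℕ) (h : A.Infinite) (h' : A ⊆ E) (x : ℕ → T) :
      ∃ p, P p ∧ p.1 ∈ A ∧ p.2.1 ⊆ A ∧ ∀ m ∉ A, p.2.2 m = x m := by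
    obtain ⟨n, hn⟩ := h.nonempty
    obtain ⟨B, h7, h8, h9⟩ := thin (h1 (k n)) (h2 _) (h.diff (finite_Iic n))
    obtain ⟨s, h10⟩ : ∃ s, 1 / 8 ≤ ‖c (k n) (x + Pi.single n s)‖ := by
      by_contra! h10
      refine h6 n (h' hn) (nss fun m => ?_)
      have := norm_sub_le (c (k n) (x + Pi.single n (m • t n))) (c (k n) (x + Pi.single n 0))
      have h11 := this.trans (add_le_add (h10 _).le (h10 _).le)
      rw [← map_sub, add_sub_add_left_eq_sub, Pi.single_zero, sub_zero, Pi.single_smul,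
        map_nsmul] at h11
      linarith
    exact ⟨(n, B, _), ⟨h' hn, h8, fun m h => ⟨h' (h7 h).1, (not_le.1 (h7 h).2 : n < m)⟩, h9, h10⟩, hn,
      h7.trans diff_subset, fun m h => by simp [show m ≠ n from fun h' => h (h' ▸ hn)]⟩
  choose f h8 h9 h10 h11 using fun p : Subtype P => h7 _ p.2.2.1 (fun _ h => (p.2.2.2.1 h).1) p.1.2.2
  obtain ⟨p, hp, -⟩ := h7 E h5 Subset.rfl 0
  let s : ℕ → Subtype P := Nat.rec ⟨p, hp⟩ fun _ p => ⟨f p, h8 p⟩
  have h12 : StrictMono fun i => (s i).1.1 :=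
    strictMono_nat_of_lt_succ fun i => ((s i).2.2.2.1 (h9 _)).2
  have h13 {i j} (h : i ≤ j) : (s j).1.2.1 ⊆ (s i).1.2.1 ∧
      ∀ m ∉ (s i).1.2.1, (s j).1.2.2 m = (s i).1.2.2 m := by
    induction h with
    | refl => simp
    | step _ ih => exact ⟨(h10 _).trans ih.1, fun m h => (h11 _ m fun h' => h (ih.1 h')).trans (ih.2 m h)⟩
  have h14 : Tendsto (fun i => k (s i).1.1) atTop atTop := by
    rw [← Nat.cofinite_eq_atTop]
    refine Tendsto.cofinite_of_finite_preimage_singleton fun j => by_contra fun h => ?_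
    obtain ⟨B, h14, h15, h16⟩ := thin (h1 j) (h2 j) (Infinite.image h12.injective.injOn h)
    obtain ⟨n, hn⟩ := h15.nonempty
    obtain ⟨i, rfl, rfl⟩ := h14 hn
    exact h6 _ (s i).2.1 (h16 _ fun m h => Pi.single_eq_of_ne (by rintro rfl; exact h hn) _)
  obtain ⟨i, hi⟩ := (((h' fun m => (s m).1.2.2 m).comp h14).norm.eventually_lt_const
    (by simp : _ < (1 / 8 : ℝ))).exists
  refine hi.not_ge ((s i).2.2.2.2.2.trans_eq (congrArg _ (sub_eq_zero.1 ?_)))
  rw [Function.comp_apply, ← map_sub]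
  refine (s i).2.2.2.2.1 _ fun m h => sub_eq_zero.2 ?_
  rcases le_total i m with h' | h'
  · exact ((h13 h').2 m h).symm
  · exact (h13 h').2 m fun h => (h12.id_le m).not_gt ((s m).2.2.2.1 h).2

noncomputable def mk : (ℕ → T) →+ (ℕ →ᵇ T) := .mk' (fun x => ofNormedAddCommGroupDiscrete x
  (|1| / 2) fun _ => AddCircle.norm_le_half_period 1 one_ne_zero) fun _ _ => rfl

abbrev G := Multiplicative (ℕ →ᵇ T)

theorem result : ∃ (G : Type) (_ : CommGroup G) (_ : TopologicalSpace G)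
    (_ : IsTopologicalGroup G), TopologicalSpace.MetrizableSpace G ∧
    ¬ TopologicalSpace.SeparableSpace G ∧ ¬ IsSGroup (PontryaginDual G) := by
  classical
  refine ⟨G, inferInstance, inferInstance, inferInstance, inferInstance, fun h => ?_,
    fun ⟨S, ⟨_, h1, h2⟩, h3⟩ => ?_⟩
  · have := Lib.helper23.uncountable_cantor
    have : TopologicalSpace.SeparableSpace (ℕ →ᵇ T) := h
    refine not_countable (Pairwise.countable_of_isOpen_disjoint (s := fun s : ℕ → Bool =>
      Metric.ball (mk fun n => if s n then ((1 / 2 : ℝ) : T) else 0) (1 / 4))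
      (fun s s' h => Metric.ball_disjoint_ball ?_) (fun _ => Metric.isOpen_ball)
      fun _ => Metric.nonempty_ball.2 (by norm_num))
    obtain ⟨n, h⟩ := Function.ne_iff.1 h
    refine le_trans ?_ (dist_coe_le_dist n)
    change _ ≤ dist (if _ then _ else _) (if _ then _ else _)
    have := nrm (r := 1 / 2) (by norm_num) le_rfl
    cases h1 : s n <;> cases h2 : s' n <;> simp_all <;> norm_num
  let ρ : PontryaginDual G →* ℕ × T → Circle :=
    .mk' (fun χ p => χ (.ofAdd (mk (Pi.single p.1 p.2)))) fun _ _ => rfl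
  have h0 : lg 1 = 0 := by rw [← AddCircle.toCircle_zero (T := 1), lg_to]
  have h4 : (ρ.ker : Set (PontryaginDual G)) ∈ 𝓝 1 := by
    letI : TopologicalSpace (ℕ × T → Circle) := ⊥
    have : DiscreteTopology (ℕ × T → Circle) := ⟨rfl⟩
    have : IsTopologicalGroup (ℕ × T → Circle) := {}
    have := (h3 ⟨topologicalGroup_inf ‹_› (topologicalGroup_induced ρ),
      t2Space_antitone inf_le_left h1, fun u hu => ?_⟩).trans inf_le_right
    · exact ((isOpen_discrete {1}).preimage (continuous_iff_le_induced.2 this)).mem_nhds (map_one ρ)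
    rw [nhds_inf, tendsto_inf, nhds_induced, tendsto_comap_iff,
      nhds_discrete (ℕ × T → Circle), tendsto_pure]
    refine ⟨h2 u hu, (hump (fun k => (lgh (u k).toMonoidHom).comp mk) (fun k => ?_)
      fun x => ?_).mono fun k h => funext fun p => lg.injective ((h p.1 p.2).trans h0.symm)⟩
    · obtain ⟨δ, h4, h5⟩ := Metric.nhds_basis_closedBall.mem_iff.1 ((lg.continuous.comp
        (u k).continuous).norm.continuousAt.eventually_lt continuousAt_const
          (by simp [h0] : ‖lg (u k 1)‖ < 1 / 8))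
      exact ⟨δ, h4, fun x h => (h5 (mem_closedBall_zero_iff.2 ((norm_le h4.le).2 h))).le⟩
    · exact h0 ▸ ((lg.continuous.comp (ev_cont _)).tendsto _).comp (h2 u hu)
  let π : ℕ × ℕ → PontryaginDual G := fun p => ⟨.mk' (fun x => AddCircle.toCircle
    (x.toAdd p.1 - x.toAdd p.2)) fun x y => by
      rw [← AddCircle.toCircle_add, sub_add_sub_comm]; rfl, AddCircle.continuous_toCircle.comp
      ((continuous_eval_const (F := ℕ →ᵇ T) _).sub (continuous_eval_const (F := ℕ →ᵇ T) _))⟩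
  let 𝒰 : Filter ℕ := hyperfilter ℕ
  have h5 : Tendsto π (𝒰 ×ˢ 𝒰) (𝓝 1) := by
    refine (ContinuousMonoidHom.isInducing_toContinuousMap G Circle).tendsto_nhds_iff.2
      (ContinuousMap.tendsto_nhds_compactOpen.2 fun K hK U hU h => ?_)
    have h5 (x : ℕ →ᵇ T) : Tendsto (fun q : (ℕ × ℕ) × (ℕ →ᵇ T) => q.2 q.1.1 - q.2 q.1.2)
        ((𝒰 ×ˢ 𝒰) ×ˢ 𝓝 x) (𝓝 0) := by
      obtain ⟨y, -, hy⟩ := isCompact_univ.ultrafilter_le_nhds ((hyperfilter ℕ).map x) (by simp)
      have h5 : Tendsto (fun q : ℕ × (ℕ →ᵇ T) => q.2 q.1) (𝒰 ×ˢ 𝓝 x) (𝓝 y) :=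
        (Tendsto.comp hy tendsto_fst).congr_dist (squeeze_zero (fun _ => dist_nonneg)
          (fun _ => dist_coe_le_dist _) (tendsto_iff_dist_tendsto_zero.1 tendsto_snd |>.congr
            fun _ => dist_comm _ _))
      simpa using (h5.comp ((tendsto_fst.comp tendsto_fst).prodMk tendsto_snd)).sub
        (h5.comp ((tendsto_snd.comp tendsto_fst).prodMk tendsto_snd))
    refine (Eventually.curry (hK.mem_prod_nhdsSet_of_forall (s := {q | π q.1 q.2 ∈ U})
      fun x hx => ?_)).mono fun p h => h.self_of_nhdsSet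
    refine ((AddCircle.continuous_toCircle.tendsto 0).comp (h5 x.toAdd)) (hU.mem_nhds ?_)
    exact AddCircle.toCircle_zero (T := 1) ▸ h hx
  obtain ⟨A, h6, B, h7, h8⟩ := mem_prod_iff.1 (h5 h4)
  obtain ⟨n, h9⟩ := (hyperfilter ℕ).nonempty_of_mem h6
  obtain ⟨m, h10, h11⟩ := (hyperfilter ℕ).nonempty_of_mem (inter_mem h7
    (hyperfilter_le_cofinite (finite_singleton n).compl_mem_cofinite))
  have := congrArg lg (congrFun (MonoidHom.mem_ker.1 (h8 (mk_mem_prod h9 h10)))
    (n, ((1 / 2 : ℝ) : T)))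
  change lg (AddCircle.toCircle ((Pi.single n _ : ℕ → T) n - (Pi.single n _ : ℕ → T) m)) = lg 1
    at this
  rw [lg_to, h0, Pi.single_eq_same, Pi.single_eq_of_ne h11, sub_zero] at this
  have h12 := nrm (r := 1 / 2) (by norm_num) le_rfl
  rw [show ((1 / 2 : ℝ) : T) = 0 from this, norm_zero] at h12
  norm_num at h12

end Pool.Agent.Results.MP_c8715f_al.Counter
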